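import Pool.Agent.L7h17.TR.Main

/-!
# Project TR: part LINE
-/

set_option autoImplicit false

open MvPolynomial Pool.Agent.L7h17

namespace Pool.Agent.L7h17.TR

theorem s_LINE : S_LINE := by
  intro F hF h0 θ
  set f : Fin 3 → Polynomial ℝ :=
    ![Polynomial.C (Real.cos θ), Polynomial.C (Real.sin θ), Polynomial.X] with hf
  have hev : ∀ τ : ℝ, eval ![Real.cos θ, Real.sin θ, τ] F = (aeval f F).eval τ := by
    intro τ
    have h1 : (Polynomial.evalRingHom τ).comp (aeval f : MvPolynomial (Fin 3) ℝ →ₐ[ℝ] _).toRingHom
        = eval ![Real.cos θ, Real.sin θ, τ] := by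
      apply MvPolynomial.ringHom_ext
      · intro r
        simp
      · intro i
        fin_cases i <;> simp [hf]
    rw [← h1]
    rfl
  refine ⟨aeval f F, ?_, ?_, hev⟩
  · rw [aeval_def, eval₂_eq']
    refine Polynomial.natDegree_sum_le_of_forall_le _ _ (fun d hd => ?_)
    have h1 : ∑ i, d i = 8 := by
      have h2 := hF (mem_support_iff.1 hd)
      rw [Finsupp.weight_apply] at h2
      rw [← h2, Finsupp.sum_fintype]
      · simp
      · simp
    rw [Fin.sum_univ_three] at h1
    have h3 : algebraMap ℝ (Polynomial ℝ) (coeff d F) * ∏ i, f i ^ d i =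
        Polynomial.C (coeff d F * Real.cos θ ^ d 0 * Real.sin θ ^ d 1) * Polynomial.X ^ d 2 := by
      rw [Fin.prod_univ_three]
      simp only [hf, Matrix.cons_val_zero, Matrix.cons_val_one, Matrix.cons_val,
        Polynomial.algebraMap_eq, map_mul, map_pow]
      ring
    rw [h3]
    refine (Polynomial.natDegree_C_mul_X_pow_le _ _).trans ?_
    omega
  · intro hq
    apply h0
    have h1 : ∀ s : ℝ, s ≠ 0 → eval ![s * Real.cos θ, s * Real.sin θ, 1] F = 0 := by
      intro s hs
      have h2 : (![s * Real.cos θ, s * Real.sin θ, 1] : Fin 3 → ℝ) =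
          s • ![Real.cos θ, Real.sin θ, s⁻¹] := by
        ext i
        fin_cases i <;> simp [hs]
      rw [h2, eval_smul_hom hF, hev, hq]
      simp
    have hc : Continuous (fun s : ℝ => eval ![s * Real.cos θ, s * Real.sin θ, 1] F) := by
      have h3 : Continuous (fun s : ℝ => (![s * Real.cos θ, s * Real.sin θ, 1] : Fin 3 → ℝ)) := by
        refine continuous_pi (fun i => ?_)
        fin_cases i
        · exact continuous_id.mul continuous_const
        · exact continuous_id.mul continuous_const
        · exact continuous_const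
      exact (MvPolynomial.continuous_eval F).comp h3
    have h4 : (fun s : ℝ => eval ![s * Real.cos θ, s * Real.sin θ, 1] F) = fun _ => 0 := by
      apply Continuous.ext_on (dense_compl_singleton (0 : ℝ)) hc continuous_const
      intro s hs
      exact h1 s hs
    have h5 := congrFun h4 0
    simpa using h5

end Pool.Agent.L7h17.TR
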