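import Pool.Agent.L7h17.TR.Stm
import Pool.Agent.L7h17.OC.Stm

/-!
# Project TR: assembly
-/

set_option autoImplicit false

open MvPolynomial Pool.Agent.L7h17

namespace Pool.Agent.L7h17.TR

lemma rot_mul (a b : ℝ) : OC.Rot a * OC.Rot b = OC.Rot (a + b) := by
  unfold OC.Rot
  rw [Real.cos_add, Real.sin_add]
  ext i j
  fin_cases i <;> fin_cases j <;>
    simp [Matrix.mul_apply, Fin.sum_univ_three] <;> ring

lemma rot_cube {θ : ℝ} (h : OC.AngleOrder θ 3) : OC.Rot θ ^ 3 = 1 := by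
  have h1 := h.2.1
  have e : OC.Rot θ ^ 3 = OC.Rot (θ + θ + θ) := by
    rw [pow_succ, pow_two, rot_mul, rot_mul]
  have h2 : Complex.exp ((θ + θ + θ : ℝ) * Complex.I) = 1 := by
    rw [← h1]
    congr 1
    push_cast
    ring
  have h3 := congrArg Complex.re h2
  have h4 := congrArg Complex.im h2
  rw [Complex.exp_ofReal_mul_I_re, Complex.one_re] at h3
  rw [Complex.exp_ofReal_mul_I_im, Complex.one_im] at h4
  rw [e]
  unfold OC.Rot
  rw [h3, h4]
  ext i j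
  fin_cases i <;> fin_cases j <;> simp

lemma eval_smul_hom {F : MvPolynomial (Fin 3) ℝ} {n : ℕ} (hF : F.IsHomogeneous n) (c : ℝ)
    (v : Fin 3 → ℝ) : eval (c • v) F = c ^ n * eval v F := by
  rw [eval_eq', eval_eq', Finset.mul_sum]
  refine Finset.sum_congr rfl fun d hd => ?_
  have h1 : ∑ i, d i = n := by
    have h2 := hF (mem_support_iff.1 hd)
    rw [Finsupp.weight_apply] at h2
    rw [← h2, Finsupp.sum_fintype]
    · simp
    · simp
  have h3 : ∏ i, (c • v) i ^ d i = c ^ n * ∏ i, v i ^ d i := by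
    rw [← h1, ← Finset.prod_pow_eq_pow_sum, ← Finset.prod_mul_distrib]
    refine Finset.prod_congr rfl fun i _ => ?_
    rw [Pi.smul_apply, smul_eq_mul, mul_pow]
  rw [h3]
  ring

theorem main (hLIN : OC.S_LIN) (hTRANS : OC.S_TRANS)
    (hOC : ∀ (F : MvPolynomial (Fin 3) ℝ), F.IsHomogeneous 8 → OC.Nonsing F →
      ∀ (T : Matrix (Fin 3) (Fin 3) ℝ) (m : ℕ), OC.ProjOrder T m → 5 ≤ m →
      OC.Preserves T F → (m = 6 ∧ ¬ OC.SplitsInto 20 F) ∨ (m = 7 ∧ ¬ OC.SplitsInto 17 F) ∨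
        (m = 8 ∧ ¬ OC.SplitsInto 19 F))
    (hCEN : S_CEN) (hTRF : S_TRF) (hBND : S_BND) (hPERM : S_PERM) (hCNT : S_CNT)
    (hNST : S_NST) (hTWO : S_TWO) (hMRG : S_MRG)
    (F : MvPolynomial (Fin 3) ℝ) (hF : F.IsHomogeneous 8) (hN : OC.Nonsing F)
    (D : Fin 22 → Set (Fin 3 → ℝ)) (hD : Ovals 22 F D)
    (T : Matrix (Fin 3) (Fin 3) ℝ) (m : ℕ) (hT : OC.ProjOrder T m) (hm : 3 ≤ m) (hm4 : m ≠ 4)
    (hTF : OC.Preserves T F) :
    m = 3 ∧ ∃ π : Equiv.Perm (Fin 22), π ^ 3 = 1 ∧ Moves D T π ∧ (∃! i, π i = i) ∧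
      (∀ i j, Inside D j i ↔ Inside D (π j) (π i)) ∧ {i | ∃ j, Inside D j i}.ncard ≠ 2 := by
  have hm3 : m = 3 := by
    by_contra hne
    have h5 : 5 ≤ m := by omega
    have hS := hMRG F D hD
    rcases hOC F hF hN T m hT h5 hTF with h | h | h
    · exact h.2 (hS 20 (by norm_num) (by norm_num))
    · exact h.2 (hS 17 (by norm_num) (by norm_num))
    · exact h.2 (hS 19 (by norm_num) (by norm_num))
  subst hm3
  refine ⟨rfl, ?_⟩
  obtain ⟨M, θ, ε, hM, hε, hTM, hθ⟩ := hLIN T 3 hT hm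
  obtain ⟨χ, hχ⟩ := hTF
  set A : Matrix (Fin 3) (Fin 3) ℝ := ε⁻¹ • T with hA
  have hTA : T = ε • A := by
    rw [hA, smul_smul, mul_inv_cancel₀ hε, one_smul]
  have hAM : A * M = M * OC.Rot θ := by
    rw [hA, Matrix.smul_mul, hTM, smul_smul, inv_mul_cancel₀ hε, one_smul]
  have hA3 : A ^ 3 = 1 := by
    have e : A ^ 3 * M = M * OC.Rot θ ^ 3 := by
      calc A ^ 3 * M = A * (A * (A * M)) := by simp only [pow_succ, pow_zero, one_mul, mul_assoc]
        _ = A * (A * (M * OC.Rot θ)) := by rw [hAM]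
        _ = A * (A * M * OC.Rot θ) := by rw [mul_assoc]
        _ = A * (M * OC.Rot θ * OC.Rot θ) := by rw [hAM]
        _ = A * M * OC.Rot θ * OC.Rot θ := by rw [← mul_assoc, ← mul_assoc]
        _ = M * OC.Rot θ ^ 3 := by
          rw [hAM]; simp only [pow_succ, pow_zero, one_mul, mul_assoc]
    rw [rot_cube hθ, mul_one] at e
    exact hM.mul_right_cancel (by rw [e, one_mul])
  have hAF : ∀ v : Fin 3 → ℝ, eval (A.mulVec v) F = (ε⁻¹ ^ 8 * χ) * eval v F := by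
    intro v
    rw [hA, Matrix.smul_mulVec, eval_smul_hom hF, hχ, mul_assoc]
  have hA0 : ∀ v : Fin 3 → ℝ, eval v F = 0 → eval (A.mulVec v) F = 0 := by
    intro v hv
    rw [hAF, hv, mul_zero]
  have hTv : ∀ v : Fin 3 → ℝ, T.mulVec v = ε • A.mulVec v := by
    intro v
    calc T.mulVec v = (ε • A).mulVec v := by rw [← hTA]
      _ = ε • A.mulVec v := Matrix.smul_mulVec ε A v
  clear_value A
  obtain ⟨π, hπ3, hπ, hfix⟩ := hPERM 22 F D A hD hA3 hA0
  have hMT : Moves D T π := by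
    have key : ∀ (j : Fin 22) (v : Fin 3 → ℝ) (c : ℝ), 0 < c → (v ∈ D j ↔ c • v ∈ D j) := by
      intro j v c hc
      refine ⟨fun h => hD.2.2.1 j v h c hc, fun h => ?_⟩
      have := hD.2.2.1 j _ h c⁻¹ (inv_pos.2 hc)
      rwa [smul_smul, inv_mul_cancel₀ hc.ne', one_smul] at this
    intro i
    rcases lt_or_gt_of_ne hε with he | he
    · rcases hπ i with h | h
      · right
        intro v
        rw [h v, key (π i) _ (-ε) (by linarith), hTv, neg_smul]
      · left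
        intro v
        rw [h v, key (π i) _ (-ε) (by linarith), hTv, neg_smul, smul_neg, neg_neg]
    · rcases hπ i with h | h
      · left
        intro v
        rw [h v, key (π i) _ ε he, hTv]
      · right
        intro v
        rw [h v, key (π i) _ ε he, hTv, smul_neg]
  obtain ⟨t1, t2, t3, -⟩ := hTRANS F M hM
  have hO := hTRF 22 F M D hM hD t2
  have hRot : ∀ w : Fin 3 → ℝ, M.mulVec ((OC.Rot θ).mulVec w) = A.mulVec (M.mulVec w) := by
    intro w
    rw [Matrix.mulVec_mulVec, Matrix.mulVec_mulVec, hAM]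
  have hc : eval ![0, 0, 1] (OC.change M F) ≠ 0 := by
    refine hCEN (OC.change M F) θ 3 (t1 hF) (t3 hN) hθ le_rfl ⟨ε⁻¹ ^ 8 * χ, fun v => ?_⟩
    rw [t2, t2, hRot, hAF]
  have huniq : ∃! i, π i = i := by
    refine hCNT π hπ3 (fun s hs => ?_)
    refine hBND 22 (OC.change M F) _ θ (t1 hF) hc hθ hO s (fun i hi w hw => ?_)
    show M.mulVec ((OC.Rot θ).mulVec w) ∈ D i
    rw [hRot]
    exact hfix i (hs i hi) _ hw
  have hnest := hNST 22 F D A π hD hA3 hπ3 hπ
  exact ⟨π, hπ3, hMT, huniq, hnest, hTWO π (fun j i => Inside D j i) hπ3 huniq hnest⟩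

end Pool.Agent.L7h17.TR
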