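import Pool.Agent.L7h17.OC.Main
import Pool.Agent.L7h24.OC.Lin
import Pool.Agent.L7h45.OC.Cov
import Pool.Agent.L7h45.OC.Top
import Pool.Agent.L7h50.OC.Cnt8
import Pool.Agent.L7h56.OC.Seva
import Pool.Agent.L7h56.OC.Sim7
import Pool.Agent.L7h60.OC.Nsp
import Pool.Agent.L7h61.OC.Dir
import Pool.Agent.L7h61.OC.Scale
import Pool.Agent.L7h69.OC.Band
import Pool.Agent.L7h73.OC.Sevb
import Pool.Agent.L7h77.OC.Cnt7
import Pool.Agent.L7h77.OC.Grp
import Pool.Agent.L7h77.OC.Trans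
import Pool.Agent.L7h93.OC.Ph
import Pool.Agent.L7h94.OC.Exp
import Pool.Agent.L7h94.OC.Inv
import Pool.Agent.L7h96.OC.Form
import Pool.Agent.L7h99.OC.Cnt6

/-!
# Project TR: the theorem of project OC (symmetries of order at least five)
-/

set_option autoImplicit false

namespace Pool.Agent.L7h17.TR

open Pool.Agent.L7h17.OC

/-- Let `F` be a real form of degree 8 in three variables whose curve is nonsingular over `ℂ`, and
let the invertible real matrix `T`, of order `m ≥ 5` as a projective transformation, map the curve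
to itself. Then `m = 6` and the real part of the curve is not the union of 20 pairwise disjoint
nonempty closed sets (it has at most 19 ovals), or `m = 7` and it has at most 16 ovals, or `m = 8`
and it has at most 18 ovals. -/
theorem s_OC (F : MvPolynomial (Fin 3) ℝ) (hF : F.IsHomogeneous 8) (hN : Nonsing F)
    (T : Matrix (Fin 3) (Fin 3) ℝ) (m : ℕ) (hT : ProjOrder T m) (hm : 5 ≤ m)
    (hTF : Preserves T F) :
    (m = 6 ∧ ¬ SplitsInto 20 F) ∨ (m = 7 ∧ ¬ SplitsInto 17 F) ∨ (m = 8 ∧ ¬ SplitsInto 19 F) :=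
  Pool.Agent.L7h17.OC.main Pool.Agent.L7h24.OC.s_LIN Pool.Agent.L7h77.OC.s_TRANS
    (Pool.Agent.L7h96.OC.s_FORM Pool.Agent.L7h94.OC.s_EXP Pool.Agent.L7h94.OC.s_COEF
      Pool.Agent.L7h94.OC.s_INV Pool.Agent.L7h61.OC.s_DIR)
    Pool.Agent.L7h45.OC.s_COVM Pool.Agent.L7h45.OC.s_COV1 Pool.Agent.L7h45.OC.s_TOP
    Pool.Agent.L7h61.OC.s_SCALE
    (Pool.Agent.L7h60.OC.s_SIM8 Pool.Agent.L7h60.OC.s_NSP)
    (Pool.Agent.L7h56.OC.s_SIM7 Pool.Agent.L7h60.OC.s_NSP)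
    (Pool.Agent.L7h60.OC.s_SIM6 Pool.Agent.L7h60.OC.s_NSP)
    Pool.Agent.L7h69.OC.s_BAND
    (Pool.Agent.L7h50.OC.s_CNT8 Pool.Agent.L7h77.OC.s_GRP)
    (Pool.Agent.L7h77.OC.s_CNT7 Pool.Agent.L7h77.OC.s_GRP)
    (Pool.Agent.L7h99.OC.s_CNT6 Pool.Agent.L7h56.OC.s_SEVA
      (Pool.Agent.L7h73.OC.s_SEVB Pool.Agent.L7h77.OC.s_GRP))
    Pool.Agent.L7h93.OC.s_PH F hF hN T m hT hm hTF

end Pool.Agent.L7h17.TR
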