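import Pool.Agent.L7h17.OC.Defs

/-!
# Project TR (MP_b7f146_ag): octics with 22 ovals and a symmetry of order three

Statements of the parts.
-/

set_option autoImplicit false

open MvPolynomial Pool.Agent.L7h17

namespace Pool.Agent.L7h17.TR

/-- The real part of the curve `F = 0` consists of the `k` ovals `D i`.  An oval is given by one of
the two (antipodal) positive cones over it: `D i` is connected, closed in `ℝ³ ∖ {0}`, invariant
under positive scalars and disjoint from its negative. -/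
def Ovals (k : ℕ) (F : MvPolynomial (Fin 3) ℝ) (D : Fin k → Set (Fin 3 → ℝ)) : Prop :=
  (∀ i, IsConnected (D i)) ∧
  (∀ i, ∃ K : Set (Fin 3 → ℝ), IsClosed K ∧ D i = K ∩ {v | v ≠ 0}) ∧
  (∀ i, ∀ v ∈ D i, ∀ c : ℝ, 0 < c → c • v ∈ D i) ∧
  (∀ i j, i ≠ j → Disjoint (D i) (D j)) ∧
  (∀ i j, ∀ v ∈ D i, -v ∉ D j) ∧
  (∀ v, v ∈ OC.realCone F ↔ ∃ i, v ∈ D i ∨ -v ∈ D i)

/-- The oval `j` lies inside the oval `i`: for the points `v` of the oval `j` the two opposite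
points `v` and `-v` are separated by `D i` in `ℝ³ ∖ {0}`. -/
def Inside {k : ℕ} (D : Fin k → Set (Fin 3 → ℝ)) (j i : Fin k) : Prop :=
  i ≠ j ∧ ∀ v ∈ D j, ∀ S : Set (Fin 3 → ℝ), IsPreconnected S → (∀ w ∈ S, w ≠ 0 ∧ w ∉ D i) →
    v ∈ S → -v ∉ S

/-- `A` maps the oval `i` onto the oval `π i`. -/
def Moves {k : ℕ} (D : Fin k → Set (Fin 3 → ℝ)) (A : Matrix (Fin 3) (Fin 3) ℝ)
    (π : Equiv.Perm (Fin k)) : Prop :=
  ∀ i, (∀ v, v ∈ D i ↔ A.mulVec v ∈ D (π i)) ∨ (∀ v, v ∈ D i ↔ -(A.mulVec v) ∈ D (π i))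

/-- [CEN] 60 lines. The centre is not on the curve. The gradient `g` at `e = (0,0,1)`: from
`F (Rot θ v) = χ F v` we get `g ∘ Rot θ = χ g` (derivative at `e`, `Rot θ e = e`); if `F e = 0`
then `g e = 0` (Euler) and `g` restricted to the plane is an eigenvector of a rotation of order
`m ≥ 3` with a real eigenvalue, so `g = 0`. (Or adapt the first step of FORM, L7h96/OC/Form.lean,
with `s_EXP, s_INV, s_DIR`: only `m ≥ 3` is used there.) -/
def S_CEN : Prop := ∀ (F : MvPolynomial (Fin 3) ℝ) (θ : ℝ) (m : ℕ), F.IsHomogeneous 8 →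
  OC.Nonsing F → OC.AngleOrder θ m → 3 ≤ m →
  (∃ χ : ℝ, ∀ v : Fin 3 → ℝ, eval ((OC.Rot θ).mulVec v) F = χ * eval v F) →
  eval ![0, 0, 1] F ≠ 0

/-- [LINE] 50 lines. The restriction to a line through the centre. -/
def S_LINE : Prop := ∀ F : MvPolynomial (Fin 3) ℝ, F.IsHomogeneous 8 → eval ![0, 0, 1] F ≠ 0 →
  ∀ θ : ℝ, ∃ q : Polynomial ℝ, q.natDegree ≤ 8 ∧ q ≠ 0 ∧
    ∀ τ : ℝ, eval ![Real.cos θ, Real.sin θ, τ] F = q.eval τ

/-- [SEC] 100 lines. An invariant connected cone off the axis meets every half plane. Proof: if `E`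
does not meet the half plane of `θ₀` then `g w = arg (- (w 0 + i w 1) e^{-iθ₀})` is continuous on
`E` (slit plane); `g (Rot θ w) - g w` is continuous with values in `θ + 2πℤ`, so it is a constant
`δ` (`E` connected); `Rot θ ^ m = 1` gives `m δ = 0`, so `δ = 0` and `exp (i θ) = 1`, a
contradiction to `AngleOrder θ m`, `2 ≤ m`. -/
def S_SEC : Prop := ∀ (θ : ℝ) (m : ℕ), OC.AngleOrder θ m → 2 ≤ m → ∀ E : Set (Fin 3 → ℝ),
  IsConnected E → (∀ w ∈ E, w 0 ≠ 0 ∨ w 1 ≠ 0) → (∀ w ∈ E, ∀ c : ℝ, 0 < c → c • w ∈ E) →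
  (∀ w ∈ E, (OC.Rot θ).mulVec w ∈ E) → ∀ θ₀ : ℝ, ∃ τ : ℝ, ![Real.cos θ₀, Real.sin θ₀, τ] ∈ E

/-- [TRF] 60 lines. Change of coordinates of the ovals. -/
def S_TRF : Prop := ∀ (k : ℕ) (F : MvPolynomial (Fin 3) ℝ) (M : Matrix (Fin 3) (Fin 3) ℝ)
  (D : Fin k → Set (Fin 3 → ℝ)), IsUnit M → Ovals k F D →
  (∀ v : Fin 3 → ℝ, eval v (OC.change M F) = eval (M.mulVec v) F) →
  Ovals k (OC.change M F) (fun i => {w | M.mulVec w ∈ D i})

/-- [BND] 100 lines, may assume `S_LINE`, `S_SEC`. At most four ovals are invariant under the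
rotation, and if there are four then there is no other oval. Proof: for `i ∈ s` and every `θ₀`
there are `τ` with `(cos θ₀, sin θ₀, τ) ∈ E i` and (with `θ₀ + π`, negative) `τ'` with
`(cos θ₀, sin θ₀, τ') ∈ - E i`; these are `2 card s` different zeros of the polynomial `q` of
[LINE], at most eight. If `card s = 4` and `j ∉ s` take a point of `E j`, scale it to
`(cos θ₀, sin θ₀, τ)` (it is not on the axis since `F (0,0,1) ≠ 0`): a ninth zero. -/
def S_BND : Prop := ∀ (k : ℕ) (F : MvPolynomial (Fin 3) ℝ) (E : Fin k → Set (Fin 3 → ℝ)) (θ : ℝ),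
  F.IsHomogeneous 8 → eval ![0, 0, 1] F ≠ 0 → OC.AngleOrder θ 3 → Ovals k F E →
  ∀ s : Finset (Fin k), (∀ i ∈ s, ∀ w ∈ E i, (OC.Rot θ).mulVec w ∈ E i) →
    s.card ≤ 4 ∧ (s.card = 4 → ∀ j, j ∈ s)

/-- [MAP] 60 lines. A linear map which preserves the curve maps an oval into an oval. Proof: the
image of `D i` is connected, contained in the union of the finitely many disjoint sets `± D j`,
closed in `ℝ³ ∖ {0}` (`isPreconnected_closed_iff` with the closed sets `K`). -/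
def S_MAP : Prop := ∀ (k : ℕ) (F : MvPolynomial (Fin 3) ℝ) (D : Fin k → Set (Fin 3 → ℝ))
  (A : Matrix (Fin 3) (Fin 3) ℝ), Ovals k F D → IsUnit A →
  (∀ v : Fin 3 → ℝ, eval v F = 0 → eval (A.mulVec v) F = 0) →
  ∀ i, ∃ j, (∀ v ∈ D i, A.mulVec v ∈ D j) ∨ (∀ v ∈ D i, -(A.mulVec v) ∈ D j)

/-- [PERM] 90 lines, may assume `S_MAP`. The permutation of the ovals; an invariant oval has an
invariant cone `D i` (not `A (D i) = - D i`, as `A ^ 3 = 1`). -/
def S_PERM : Prop := ∀ (k : ℕ) (F : MvPolynomial (Fin 3) ℝ) (D : Fin k → Set (Fin 3 → ℝ))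
  (A : Matrix (Fin 3) (Fin 3) ℝ), Ovals k F D → A ^ 3 = 1 →
  (∀ v : Fin 3 → ℝ, eval v F = 0 → eval (A.mulVec v) F = 0) →
  ∃ π : Equiv.Perm (Fin k), π ^ 3 = 1 ∧ Moves D A π ∧
    ∀ i, π i = i → ∀ v ∈ D i, A.mulVec v ∈ D i

/-- [CNT] 30 lines, `Equiv.Perm.card_fixedPoints_modEq`. -/
def S_CNT : Prop := ∀ π : Equiv.Perm (Fin 22), π ^ 3 = 1 →
  (∀ s : Finset (Fin 22), (∀ i ∈ s, π i = i) → s.card ≤ 4 ∧ (s.card = 4 → ∀ j, j ∈ s)) →
  ∃! i, π i = i

/-- [NST] 70 lines. The nesting is preserved. Proof: pull back `S` by `± A` (`A ^ 3 = 1`; the set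
`S` contains `v` and `-v`, so the signs do not matter); the converse by iteration. -/
def S_NST : Prop := ∀ (k : ℕ) (F : MvPolynomial (Fin 3) ℝ) (D : Fin k → Set (Fin 3 → ℝ))
  (A : Matrix (Fin 3) (Fin 3) ℝ) (π : Equiv.Perm (Fin k)), Ovals k F D → A ^ 3 = 1 → π ^ 3 = 1 →
  Moves D A π → ∀ i j, Inside D j i ↔ Inside D (π j) (π i)

/-- [TWO] 30 lines. The set of the nonempty ovals is invariant under `π` and has not two elements. -/
def S_TWO : Prop := ∀ (π : Equiv.Perm (Fin 22)) (r : Fin 22 → Fin 22 → Prop), π ^ 3 = 1 →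
  (∃! i, π i = i) → (∀ i j, r j i ↔ r (π j) (π i)) → {i | ∃ j, r j i}.ncard ≠ 2

/-- [MRG] 60 lines. Unite the last ovals. -/
def S_MRG : Prop := ∀ (F : MvPolynomial (Fin 3) ℝ) (D : Fin 22 → Set (Fin 3 → ℝ)), Ovals 22 F D →
  ∀ n : ℕ, 1 ≤ n → n ≤ 22 → OC.SplitsInto n F

end Pool.Agent.L7h17.TR
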